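import Pool.Agent.Lib.P50089e.Compact

/-!
# A negative answer to Q1 of MP_50089e_gt

There is a Banach space `X` whose closed unit ball is an `F_σδ` subset of the closed unit ball of
`X**` with the weak-star topology, and a compactification of the closed unit ball of `X` with the
weak topology in which it is not an `F_σδ` set.
-/

set_option autoImplicit false

namespace Pool.Agent.Results.MP_50089e_gt.NegQ1

/-- `F_σδ` sets: countable intersections of countable unions of closed sets. -/
def IsFSigmaDelta {K : Type} [TopologicalSpace K] (A : Set K) : Prop :=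
  ∃ C : ℕ → ℕ → Set K, (∀ n k, IsClosed (C n k)) ∧ A = ⋂ n, ⋃ k, C n k

/-- The closed unit ball of `X**`: the additive, homogeneous functions on `X*` bounded by the norm.
With the topology of pointwise convergence on `X*` (the subspace topology of the product topology)
this is the closed unit ball of `X**` with the weak-star topology. -/
def bidualBall (X : Type) [NormedAddCommGroup X] [NormedSpace ℝ X] : Set ((X →L[ℝ] ℝ) → ℝ) :=
  {z | (∀ φ ψ, z (φ + ψ) = z φ + z ψ) ∧ (∀ (c : ℝ) φ, z (c • φ) = c * z φ) ∧ ∀ φ, |z φ| ≤ ‖φ‖}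

/-- The canonical image of the closed unit ball of `X` in the closed unit ball of `X**`. -/
def canonImage (X : Type) [NormedAddCommGroup X] [NormedSpace ℝ X] : Set (bidualBall X) :=
  {z | ∃ x : X, ‖x‖ ≤ 1 ∧ ∀ φ : X →L[ℝ] ℝ, z.1 φ = φ x}

/-- The closed unit ball of `X` as a subset of `X` with the weak topology. -/
def weakBall (X : Type) [NormedAddCommGroup X] [NormedSpace ℝ X] : Set (WeakSpace ℝ X) :=
  {x | ‖(toWeakSpace ℝ X).symm x‖ ≤ 1}

/-- `e : Y → K` is a compactification of `Y`: `K` is compact Hausdorff and `e` is a homeomorphic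
embedding with dense range. -/
structure IsCompactification {Y K : Type} [TopologicalSpace Y] [TopologicalSpace K] (e : Y → K) :
    Prop where
  compact : CompactSpace K
  t2 : T2Space K
  embedding : Topology.IsEmbedding e
  dense : DenseRange e

/-- `Y` is absolutely `F_σδ`: it is an `F_σδ` subset of each of its compactifications. -/
def AbsolutelyFSigmaDelta (Y : Type) [TopologicalSpace Y] : Prop :=
  ∀ (K : Type) [TopologicalSpace K] (e : Y → K),
    IsCompactification e → IsFSigmaDelta (Set.range e)

/-- Negative answer to Q1. -/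
theorem result : ∃ (X : Type) (_ : NormedAddCommGroup X) (_ : NormedSpace ℝ X)
    (_ : CompleteSpace X),
    IsFSigmaDelta (canonImage X) ∧ ¬ AbsolutelyFSigmaDelta (weakBall X) := by
  refine ⟨Pool.Agent.Lib.P50089e.XX, inferInstance, inferInstance, inferInstance, ?_,
    fun habs => ?_⟩
  · have hs : ∀ m : ℕ, ∃ f : ℕ → ((N : ℕ) × ℕ × (Fin N → Fin m → ℕ)), Function.Surjective f :=
      fun m => by
        have : Nonempty ((N : ℕ) × ℕ × (Fin N → Fin m → ℕ)) := ⟨⟨0, 0, fun _ _ => 0⟩⟩
        exact exists_surjective_nat _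
    choose f hf using hs
    refine ⟨fun m k => closure (Pool.Agent.Lib.P50089e.canon ''
      Pool.Agent.Lib.P50089e.Sset m (f m k)), fun _ _ => isClosed_closure, ?_⟩
    have hrange : canonImage Pool.Agent.Lib.P50089e.XX =
        Set.range Pool.Agent.Lib.P50089e.canon := by
      refine Set.Subset.antisymm ?_ ?_
      · rintro z ⟨x, hx, hz⟩
        refine ⟨Pool.Agent.Lib.P50089e.mkX x hx, Subtype.ext (funext (fun φ => ?_))⟩
        exact (hz φ).symm
      · rintro _ ⟨x, rfl⟩
        exact ⟨Pool.Agent.Lib.P50089e.toX x, x.2, fun φ => rfl⟩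
    refine hrange.trans (Eq.trans Pool.Agent.Lib.P50089e.range_canon ?_)
    refine Set.iInter_congr (fun m => ?_)
    exact ((hf m).iUnion_comp (fun c => closure (Pool.Agent.Lib.P50089e.canon ''
      Pool.Agent.Lib.P50089e.Sset m c))).symm
  · obtain ⟨C, hC, heq⟩ := habs Pool.Agent.Lib.P50089e.KK Pool.Agent.Lib.P50089e.emb
      ⟨inferInstance, inferInstance, Pool.Agent.Lib.P50089e.embedding_emb,
        Pool.Agent.Lib.P50089e.denseRange_emb⟩
    exact Pool.Agent.Lib.P50089e.not_Fsd C hC heq

end Pool.Agent.Results.MP_50089e_gt.NegQ1
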